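import Pool.Agent.Helper77.RL.Goals2

/-!
# Project RL (MP_fc6b1e_nt): the lemma `L_TRK` (roots of unity)
-/

namespace Pool.Agent.Helper24.RL

open NumberField Polynomial Module IsDedekindDomain TensorProduct Pool.Agent.Helper51.SigLeo
open Pool.Agent.Helper51.RP

section tools

variable {K Ω : Type} [Field K] [Field Ω] [Algebra K Ω]

theorem mem_of_fix [IsGalois K Ω] {F : IntermediateField K Ω} {s : Ω}
    (h : ∀ g : Ω ≃ₐ[K] Ω, (∀ x ∈ F, g x = x) → g s = s) : s ∈ F := by
  rw [← InfiniteGalois.fixedField_fixingSubgroup F, IntermediateField.mem_fixedField_iff]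
  intro g hg
  exact h g fun x hx => (IntermediateField.mem_fixingSubgroup_iff _ _).1 hg x hx

/-- an automorphism of `p`-power order fixes the `p`-th roots of unity -/
theorem prim_fix {p : ℕ} (hp : p.Prime) (n : ℕ) (γ : Ω ≃ₐ[K] Ω) {ξ : Ω}
    (hξ : IsPrimitiveRoot ξ p) (hγ : (γ ^ p ^ n) ξ = ξ) : γ ξ = ξ := by
  have hne : NeZero p := ⟨hp.ne_zero⟩
  have hfp : Fact p.Prime := ⟨hp⟩
  obtain ⟨i, _, hi⟩ := hξ.eq_pow_of_pow_eq_one (ξ := γ ξ) (by
    rw [← map_pow, hξ.pow_eq_one, map_one])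
  have h1 : ∀ k : ℕ, (γ ^ k) ξ = ξ ^ (i ^ k) := by
    intro k
    induction k with
    | zero => simp
    | succ k ih =>
      rw [pow_succ', AlgEquiv.mul_apply, ih, map_pow, ← hi, ← pow_mul, pow_succ']
  have h2 : i ^ p ^ n ≡ i [MOD p] := by
    rw [← ZMod.natCast_eq_natCast_iff]
    push_cast
    exact ZMod.pow_card_pow _
  have h3 := h1 (p ^ n)
  rw [hγ, pow_eq_pow_mod (i ^ p ^ n) hξ.pow_eq_one, h2, ← pow_eq_pow_mod i hξ.pow_eq_one, hi] at h3
  exact h3.symm

/-- an element of `Gal(Ω/K)` trivial on `M` has order dividing `[X : M]` on `X` -/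
theorem pow_fix [Normal K Ω] {M X : IntermediateField K Ω} (hMX : M ≤ X) (hX : IsGalois K X)
    [FiniteDimensional K X] {n : ℕ} (hM : 0 < finrank K M)
    (hn : finrank K X = finrank K M * n) (g : Ω ≃ₐ[K] Ω)
    (hg : ∀ x ∈ M, g x = x) (x : X) : (g ^ n) (x : Ω) = x := by
  let _ : Algebra M X := (IntermediateField.inclusion hMX).toRingHom.toAlgebra
  have ht : IsScalarTower K M X := IsScalarTower.of_algebraMap_eq fun x => rfl
  have hfin : FiniteDimensional M X := FiniteDimensional.right K M X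
  have hgal : IsGalois M X := IsGalois.tower_top_of_isGalois K M X
  have hdeg : finrank M X = n := by
    have e1 := Module.finrank_mul_finrank K M X
    rw [hn] at e1
    exact Nat.eq_of_mul_eq_mul_left hM e1
  let γ : X ≃ₐ[M] X := AlgEquiv.ofRingEquiv
    (f := ((AlgEquiv.restrictNormalHom X g : X ≃ₐ[K] X) : X ≃+* X)) fun y => by
      apply Subtype.ext
      have h1 := AlgEquiv.restrictNormalHom_apply X g (algebraMap M X y)
      exact h1.trans (hg _ y.2)
  have hγ : ∀ y : X, ((γ y : X) : Ω) = g y := fun y => AlgEquiv.restrictNormalHom_apply X g y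
  have h2 : ∀ (k : ℕ) (y : X), (((γ ^ k) y : X) : Ω) = (g ^ k) y := by
    intro k
    induction k with
    | zero => intro y; rfl
    | succ k ih => intro y; rw [pow_succ', pow_succ', AlgEquiv.mul_apply, AlgEquiv.mul_apply, hγ, ih]
  have h3 : γ ^ n = 1 := by
    rw [← hdeg, ← IsGalois.card_aut_eq_finrank M X, pow_card_eq_one']
  have h4 := h2 n x
  rw [h3] at h4
  exact h4.symm

theorem tor_part [IsGalois K Ω] {M : IntermediateField K Ω} (hM : IsGalois K M)
    (h0 : 0 < finrank K M) (δ : M ≃ₐ[K] M) (hδ : orderOf δ = finrank K M) (ξ₀ : M)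
    (hno : ¬ M ≤ IntermediateField.adjoin K {(ξ₀ : Ω)}) :
    ∃ e, 0 < e ∧ e < finrank K M ∧ (δ ^ e) ξ₀ = ξ₀ := by
  classical
  have hfin : FiniteDimensional K M := FiniteDimensional.of_finrank_pos h0
  by_contra hcon
  push Not at hcon
  apply hno
  intro x hx
  apply mem_of_fix
  intro g hg
  have hgξ : g (ξ₀ : Ω) = ξ₀ := hg _ (IntermediateField.mem_adjoin_simple_self K _)
  have h1 : (AlgEquiv.restrictNormalHom M g : M ≃ₐ[K] M) ∈ Subgroup.zpowers δ := by
    have h2 : Subgroup.zpowers δ = ⊤ := by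
      apply Subgroup.eq_top_of_card_eq
      rw [Nat.card_zpowers, hδ, IsGalois.card_aut_eq_finrank]
    rw [h2]; trivial
  rw [mem_zpowers_iff_mem_range_orderOf, Finset.mem_image] at h1
  obtain ⟨e, he1, he2⟩ := h1
  rw [Finset.mem_range, hδ] at he1
  have h3 : (δ ^ e) ξ₀ = ξ₀ := by
    rw [he2]
    apply Subtype.ext
    rw [AlgEquiv.restrictNormalHom_apply]
    exact hgξ
  have h4 : e = 0 := by
    by_contra h5
    exact hcon e (Nat.pos_of_ne_zero h5) he1 h3
  rw [h4, pow_zero] at he2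
  have h5 := AlgEquiv.restrictNormalHom_apply M g ⟨x, hx⟩
  rw [← he2] at h5
  exact h5.symm

end tools

theorem l_trk (h1 : Pool.Agent.Helper42.RD.E_TOR) : Pool.Agent.Helper77.RL.L_TRK := by
  intro p hpf k _ _ m ζ Φ P hPhi K _ _ M X _ _ _ hMX hdM hdX hno δ' hδ'm hδ'e
  have hp := hpf.out
  have hm0 : 0 < m := lt_trans one_pos hPhi.one_lt
  obtain ⟨n, hn⟩ := hdX
  have hfX : FiniteDimensional K X := FiniteDimensional.right ℚ K X
  have hM0 : 0 < finrank K M := by rw [hdM]; exact hm0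
  have hfM : FiniteDimensional K M := FiniteDimensional.of_finrank_pos hM0
  apply h1 p k m ζ Φ P hPhi K X δ' hδ'm
  intro ξ hξ
  have hξΩ : IsPrimitiveRoot (ξ : AlgebraicClosure K) p :=
    hξ.map_of_injective (f := algebraMap X (AlgebraicClosure K)) (algebraMap X _).injective
  have hξM : (ξ : AlgebraicClosure K) ∈ M := by
    apply mem_of_fix
    intro g hg
    refine prim_fix hp n g hξΩ (pow_fix hMX inferInstance hM0 ?_ g hg ξ)
    rw [hn, hdM]
  obtain ⟨d, hd⟩ := AlgEquiv.restrictNormalHom_surjective (F := K) (K₁ := X)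
    (E := AlgebraicClosure K) δ'
  have hdX' : ∀ (e : ℕ) (y : X), (((δ' ^ e) y : X) : AlgebraicClosure K) = (d ^ e) y := by
    intro e y
    rw [← hd, ← map_pow]
    exact AlgEquiv.restrictNormalHom_apply X (d ^ e) y
  set δ : M ≃ₐ[K] M := AlgEquiv.restrictNormalHom M d with hδdef
  have hδM : ∀ (e : ℕ) (y : M), (((δ ^ e) y : M) : AlgebraicClosure K) = (d ^ e) y := by
    intro e y
    rw [hδdef, ← map_pow]
    exact AlgEquiv.restrictNormalHom_apply M (d ^ e) y
  have hord : orderOf δ = finrank K M := by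
    rw [hdM, orderOf_eq_iff hm0]
    constructor
    · ext y
      rw [hδM m y, ← hdX' m ⟨y, hMX y.2⟩, hδ'm]
      rfl
    · intro e hem he0 hcon
      obtain ⟨x, hxM, hx⟩ := hδ'e e he0 hem
      apply hx
      apply Subtype.ext
      rw [hdX' e x, ← hδM e ⟨x, hxM⟩, hcon]
      rfl
  obtain ⟨e, he0, hem, he⟩ := tor_part inferInstance hM0 δ hord ⟨ξ, hξM⟩ (hno _ hξΩ)
  refine ⟨e, he0, by rw [← hdM]; exact hem, ?_⟩
  apply Subtype.ext
  rw [hdX' e ξ, ← hδM e ⟨ξ, hξM⟩, he]

end Pool.Agent.Helper24.RL
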