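import Pool.Agent.Helper18.RL.Goals

set_option autoImplicit false
set_option linter.unusedSectionVars false

/-!
Packet RL-CLS: the colour classes of a multiple of an `r`-graph.
-/

namespace Pool.Agent.Helper24.RL

open Finset Pool.Agent.Helper37.RG3 Pool.Agent.Helper18.RL

theorem gcls (hF : G_FRC) : G_CLS := by
  intro V _ _ U w r h
  obtain ⟨k, hk, σ, hσ, hc⟩ := hF V U w r h
  have hi : ∀ u, (fun u v => k * w u v) u u = 0 := by
    intro u
    simp [h.irr u]
  refine ⟨k, σ, hk, fun i => ⟨hσ i, ?_, ?_⟩, hc, ?_⟩
  · intro u hu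
    exact col_fix hc (fun v => by simp [h.zero_left hu v]) i
  · intro u hu
    have h1 := col_deg hc hi u
    have h2 : ∑ v, k * w u v = k * r := by
      rw [← Finset.mul_sum, h.deg u hu]
    have h3 : (univ.filter fun i => σ i u ≠ u) = univ := by
      apply Finset.eq_univ_of_card
      rw [h1, Fintype.card_fin]
      exact h2
    have h4 : σ i u ≠ u := by
      have : i ∈ (univ.filter fun i => σ i u ≠ u) := by rw [h3]; exact mem_univ i
      exact (mem_filter.mp this).2
    have h5 : (univ.filter fun j => σ j u = σ i u).card = k * w u (σ i u) :=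
      hc u (σ i u) (fun e => h4 e.symm)
    intro h0
    rw [h0, Nat.mul_zero, Finset.card_eq_zero] at h5
    have h6 : i ∈ (univ.filter fun j => σ j u = σ i u) := by simp
    rw [h5] at h6
    exact absurd h6 (Finset.notMem_empty i)
  · intro A B _ hAB
    have e1 : ∀ i, (A.filter fun x => σ i x ∈ B).card
        = ∑ x ∈ A, ∑ y ∈ B, if σ i x = y then 1 else 0 := by
      intro i
      rw [Finset.card_filter]
      refine Finset.sum_congr rfl fun x _ => ?_
      rw [Finset.sum_ite_eq]
    rw [Finset.sum_congr rfl fun i _ => e1 i, Finset.sum_comm]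
    unfold bt
    rw [Finset.mul_sum]
    refine Finset.sum_congr rfl fun x hx => ?_
    rw [Finset.sum_comm, Finset.mul_sum]
    refine Finset.sum_congr rfl fun y hy => ?_
    have h7 : (univ.filter fun i => σ i x = y).card = k * w x y :=
      hc x y (fun e => Finset.disjoint_left.mp hAB hx (e ▸ hy))
    rw [← h7, Finset.card_filter]

end Pool.Agent.Helper24.RL
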